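import Mathlib
import Pool.Agent.Helper937.McsDef

/-!
# A compactum built from a family of branches

For a family `ξ` of sequences indexed by `Γ`, the points of `Pt ξ` are the finite sequences
(isolated), one limit point `lim x` for every `x : Γ` (whose neighbourhoods contain all but finitely
many initial segments of `ξ x`) and one point at infinity.
-/

set_option autoImplicit false

namespace Pool.Agent.N480.Cors

open Set Filter Topology Cardinal

variable {Γ β : Type}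

/-- The node of length `n` on the branch `f`. -/
def nd (f : ℕ → β) (n : ℕ) : Σ n : ℕ, (Fin n → β) := ⟨n, fun i => f i⟩

theorem nd_eq {f g : ℕ → β} {n m : ℕ} : nd f n = nd g m ↔ n = m ∧ ∀ k < n, f k = g k := by
  constructor
  · intro h
    have h1 : n = m := congrArg Sigma.fst h
    subst h1
    refine ⟨rfl, fun k hk => ?_⟩
    have h2 : (fun i : Fin n => f i) = fun i : Fin n => g i := by
      simpa [nd] using h
    exact congrFun h2 ⟨k, hk⟩
  · rintro ⟨rfl, h⟩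
    simp only [nd, Sigma.mk.injEq, heq_eq_eq, true_and]
    funext i
    exact h i i.2

/-- The points of the compactum. -/
inductive Pt (ξ : Γ → ℕ → β) : Type
  | node (s : Σ n : ℕ, (Fin n → β)) : Pt ξ
  | lim (x : Γ) : Pt ξ
  | inf : Pt ξ

/-- Open subsets. -/
def Op (ξ : Γ → ℕ → β) (U : Set (Pt ξ)) : Prop :=
  (∀ x, Pt.lim x ∈ U → ∃ m, ∀ n ≥ m, Pt.node (nd (ξ x) n) ∈ U) ∧
  (Pt.inf ∈ U → ∃ F : Finset Γ, (∀ x ∉ F, Pt.lim x ∈ U) ∧
    {s : Σ n : ℕ, (Fin n → β) | Pt.node s ∉ U ∧ ∀ x ∈ F, ∀ n, s ≠ nd (ξ x) n}.Finite)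

instance instTop (ξ : Γ → ℕ → β) : TopologicalSpace (Pt ξ) where
  IsOpen := Op ξ
  isOpen_univ := ⟨fun _ _ => ⟨0, fun _ _ => trivial⟩, fun _ => ⟨∅, fun _ _ => trivial, by simp⟩⟩
  isOpen_inter := by
    classical
    rintro U V ⟨h1, h2⟩ ⟨h3, h4⟩
    refine ⟨fun x hx => ?_, fun hx => ?_⟩
    · obtain ⟨m, hm⟩ := h1 x hx.1
      obtain ⟨m', hm'⟩ := h3 x hx.2
      exact ⟨max m m', fun n hn => ⟨hm n (le_trans (le_max_left _ _) hn),
        hm' n (le_trans (le_max_right _ _) hn)⟩⟩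
    · obtain ⟨F, hF, hF'⟩ := h2 hx.1
      obtain ⟨G, hG, hG'⟩ := h4 hx.2
      refine ⟨F ∪ G, fun x hx => ?_, (hF'.union hG').subset ?_⟩
      · rw [Finset.mem_union, not_or] at hx
        exact ⟨hF x hx.1, hG x hx.2⟩
      · rintro s ⟨hs, hs'⟩
        by_cases h : Pt.node s ∈ U
        · exact Or.inr ⟨fun h' => hs ⟨h, h'⟩, fun x hx => hs' x (Finset.mem_union_right _ hx)⟩
        · exact Or.inl ⟨h, fun x hx => hs' x (Finset.mem_union_left _ hx)⟩
  isOpen_sUnion := by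
    intro C hC
    refine ⟨fun x hx => ?_, fun hx => ?_⟩
    · obtain ⟨U, hU, hx⟩ := hx
      obtain ⟨m, hm⟩ := (hC U hU).1 x hx
      exact ⟨m, fun n hn => ⟨U, hU, hm n hn⟩⟩
    · obtain ⟨U, hU, hx⟩ := hx
      obtain ⟨F, hF, hF'⟩ := (hC U hU).2 hx
      exact ⟨F, fun x hx => ⟨U, hU, hF x hx⟩,
        hF'.subset fun s hs => ⟨fun h => hs.1 ⟨U, hU, h⟩, hs.2⟩⟩

theorem isOpen_iff' {ξ : Γ → ℕ → β} {U : Set (Pt ξ)} : IsOpen U ↔ Op ξ U := Iff.rfl

theorem isOpen_node {ξ : Γ → ℕ → β} (s : Σ n : ℕ, (Fin n → β)) :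
    IsOpen ({Pt.node s} : Set (Pt ξ)) := by
  refine ⟨fun x hx => ?_, fun hx => ?_⟩
  · simp at hx
  · simp at hx

theorem isClosed_node {ξ : Γ → ℕ → β} (s : Σ n : ℕ, (Fin n → β)) :
    IsClosed ({Pt.node s} : Set (Pt ξ)) := by
  rw [← isOpen_compl_iff]
  refine ⟨fun x hx => ⟨s.1 + 1, fun n hn => ?_⟩, fun hx => ⟨∅, fun x hx => ?_, ?_⟩⟩
  · simp only [mem_compl_iff, mem_singleton_iff, Pt.node.injEq]
    intro h
    have : n = s.1 := by rw [← h]; rfl
    omega
  · simp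
  · refine (Set.finite_singleton s).subset ?_
    rintro t ⟨ht, -⟩
    simpa using ht

/-- The basic neighbourhood of `lim x`. -/
def W (ξ : Γ → ℕ → β) (x : Γ) (m : ℕ) : Set (Pt ξ) :=
  {p | p = Pt.lim x ∨ ∃ n ≥ m, p = Pt.node (nd (ξ x) n)}

theorem isOpen_W {ξ : Γ → ℕ → β} (x : Γ) (m : ℕ) : IsOpen (W ξ x m) := by
  refine ⟨fun y hy => ?_, fun hx => ?_⟩
  · have : y = x := by
      rcases hy with h | ⟨n, _, h⟩
      · exact Pt.lim.inj h
      · cases h
    subst this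
    exact ⟨m, fun n hn => Or.inr ⟨n, hn, rfl⟩⟩
  · rcases hx with h | ⟨n, _, h⟩ <;> cases h

theorem isClosed_W {ξ : Γ → ℕ → β} (hξ : Function.Injective ξ) (x : Γ) (m : ℕ) :
    IsClosed (W ξ x m) := by
  rw [← isOpen_compl_iff]
  refine ⟨fun y hy => ?_, fun _ => ⟨{x}, fun y hy => ?_, ?_⟩⟩
  · have hyx : y ≠ x := by
      rintro rfl
      exact hy (Or.inl rfl)
    have : ∃ k, ξ y k ≠ ξ x k := by
      by_contra h
      push Not at h
      exact hyx (hξ (funext h))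
    obtain ⟨k, hk⟩ := this
    refine ⟨k + 1, fun n hn => ?_⟩
    rintro (h | ⟨n', _, h⟩)
    · cases h
    · have := nd_eq.1 (Pt.node.inj h)
      exact hk (this.2 k (by omega))
  · rintro (h | ⟨n', _, h⟩)
    · exact hy (by simpa using Pt.lim.inj h)
    · cases h
  · refine (Set.finite_empty).subset ?_
    rintro s ⟨hs, hs'⟩
    have h1 : Pt.node s ∈ W ξ x m := by simpa using hs
    rcases h1 with h | ⟨n', _, h⟩
    · cases h
    · exact (hs' x (by simp) n' (Pt.node.inj h)).elim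

theorem inf_notMem_W {ξ : Γ → ℕ → β} (x : Γ) (m : ℕ) : Pt.inf ∉ W ξ x m := by
  rintro (h | ⟨n, _, h⟩) <;> cases h

theorem lim_mem_W {ξ : Γ → ℕ → β} {x y : Γ} {m : ℕ} : Pt.lim y ∈ W ξ x m ↔ y = x := by
  constructor
  · rintro (h | ⟨n, _, h⟩)
    · exact Pt.lim.inj h
    · cases h
  · rintro rfl
    exact Or.inl rfl

theorem node_mem_W {ξ : Γ → ℕ → β} {x : Γ} {s : Σ n : ℕ, (Fin n → β)} {m : ℕ} :
    Pt.node s ∈ W ξ x m ↔ m ≤ s.1 ∧ s = nd (ξ x) s.1 := by
  constructor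
  · rintro (h | ⟨n, hn, h⟩)
    · cases h
    · have := Pt.node.inj h
      subst this
      exact ⟨hn, rfl⟩
  · rintro ⟨h1, h2⟩
    exact Or.inr ⟨s.1, h1, congrArg _ h2⟩

instance instT2 (ξ : Γ → ℕ → β) [hξ : Fact (Function.Injective ξ)] : T2Space (Pt ξ) := by
  refine ⟨fun p q hpq => ?_⟩
  -- a clopen set containing exactly one of the points suffices
  have key : ∀ C : Set (Pt ξ), IsOpen C → IsClosed C → (p ∈ C ↔ q ∉ C) →
      ∃ u v, IsOpen u ∧ IsOpen v ∧ p ∈ u ∧ q ∈ v ∧ Disjoint u v := by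
    intro C h1 h2 h3
    by_cases hp : p ∈ C
    · exact ⟨C, Cᶜ, h1, h2.isOpen_compl, hp, h3.1 hp, disjoint_compl_right⟩
    · refine ⟨Cᶜ, C, h2.isOpen_compl, h1, hp, ?_, disjoint_compl_left⟩
      by_contra hq
      exact hp (h3.2 hq)
  cases p with
  | node s =>
    refine key {Pt.node s} (isOpen_node s) (isClosed_node s) ?_
    simp only [mem_singleton_iff, true_iff]
    exact fun h => hpq h.symm
  | lim x =>
    cases q with
    | node s =>
      refine key {Pt.node s} (isOpen_node s) (isClosed_node s) ?_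
      simp
    | lim y =>
      refine key (W ξ x 0) (isOpen_W x 0) (isClosed_W hξ.out x 0) ?_
      rw [lim_mem_W, lim_mem_W]
      constructor
      · rintro _ rfl
        exact hpq rfl
      · intro _; rfl
    | inf =>
      refine key (W ξ x 0) (isOpen_W x 0) (isClosed_W hξ.out x 0) ?_
      rw [lim_mem_W]
      exact ⟨fun _ => inf_notMem_W x 0, fun _ => rfl⟩
  | inf =>
    cases q with
    | node s =>
      refine key {Pt.node s} (isOpen_node s) (isClosed_node s) ?_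
      simp
    | lim y =>
      refine key (W ξ y 0) (isOpen_W y 0) (isClosed_W hξ.out y 0) ?_
      rw [lim_mem_W]
      exact ⟨fun h => (inf_notMem_W y 0 h).elim, fun h => (h rfl).elim⟩
    | inf => exact (hpq rfl).elim

instance instCompact (ξ : Γ → ℕ → β) : CompactSpace (Pt ξ) := by
  classical
  refine ⟨isCompact_of_finite_subcover ?_⟩
  intro ι U hU hc
  have hcov : ∀ p : Pt ξ, ∃ i, p ∈ U i := fun p => by simpa using hc (mem_univ p)
  choose i hi using hcov
  obtain ⟨F, hF, hF'⟩ := (hU (i Pt.inf)).2 (hi Pt.inf)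
  have hlim : ∀ x : Γ, ∃ m, ∀ n ≥ m, Pt.node (nd (ξ x) n) ∈ U (i (Pt.lim x)) :=
    fun x => (hU (i (Pt.lim x))).1 x (hi _)
  choose m hm using hlim
  refine ⟨{i Pt.inf} ∪ F.image (fun x => i (Pt.lim x)) ∪
    hF'.toFinset.image (fun s => i (Pt.node s)) ∪
    F.biUnion (fun x => (Finset.range (m x)).image fun n => i (Pt.node (nd (ξ x) n))), ?_⟩
  intro p _
  have main : ∃ j ∈ {i Pt.inf} ∪ F.image (fun x => i (Pt.lim x)) ∪
    hF'.toFinset.image (fun s => i (Pt.node s)) ∪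
    F.biUnion (fun x => (Finset.range (m x)).image fun n => i (Pt.node (nd (ξ x) n))),
      p ∈ U j := by
    cases p with
    | inf => exact ⟨i Pt.inf, by simp, hi _⟩
    | lim x =>
      by_cases hx : x ∈ F
      · refine ⟨i (Pt.lim x), ?_, hi _⟩
        simp only [Finset.mem_union, Finset.mem_image]
        exact Or.inl (Or.inl (Or.inr ⟨x, hx, rfl⟩))
      · exact ⟨i Pt.inf, by simp, hF x hx⟩
    | node s =>
      by_cases h1 : Pt.node s ∈ U (i Pt.inf)
      · exact ⟨i Pt.inf, by simp, h1⟩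
      by_cases h2 : ∃ x ∈ F, ∃ n, s = nd (ξ x) n
      · obtain ⟨x, hx, n, rfl⟩ := h2
        by_cases h3 : m x ≤ n
        · refine ⟨i (Pt.lim x), ?_, hm x n h3⟩
          simp only [Finset.mem_union, Finset.mem_image]
          exact Or.inl (Or.inl (Or.inr ⟨x, hx, rfl⟩))
        · refine ⟨i (Pt.node (nd (ξ x) n)), ?_, hi _⟩
          simp only [Finset.mem_union, Finset.mem_biUnion, Finset.mem_image, Finset.mem_range]
          exact Or.inr ⟨x, hx, n, by omega, rfl⟩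
      · push Not at h2
        refine ⟨i (Pt.node s), ?_, hi _⟩
        simp only [Finset.mem_union, Finset.mem_image]
        exact Or.inl (Or.inr ⟨s, hF'.mem_toFinset.2 ⟨h1, h2⟩, rfl⟩)
  obtain ⟨j, hj, hp⟩ := main
  exact mem_iUnion₂.2 ⟨j, hj, hp⟩

end Pool.Agent.N480.Cors
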