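import Pool.Agent.N480.Cors

/-!
# Small closures embed, the whole compactum does not
-/

set_option autoImplicit false

namespace Pool.Agent.N480.Cors

open Set Filter Topology Cardinal
open Pool.Agent.Helper937.Mcs (SD)

variable {Γ β : Type}

/-- Embedding into a sigma-product of real lines. -/
def Cor (X : Type) [TopologicalSpace X] : Prop :=
  ∃ (T : Type) (f : X → (T → ℝ)), Topology.IsEmbedding f ∧ ∀ x, (Function.support (f x)).Countable

/-- Embedding by characteristic functions of finite sets (strong Eberlein compactness). -/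
def StrongEb (X : Type) [TopologicalSpace X] : Prop :=
  ∃ (T : Type) (f : X → (T → ℝ)), Topology.IsEmbedding f ∧
    ∀ x, (Function.support (f x)).Finite ∧ ∀ t, f x t = 0 ∨ f x t = 1

open Classical in
/-- The coordinate functions. -/
noncomputable def coord (ξ : Γ → ℕ → β) (T : Set Γ) (c : Γ → ℕ)
    (t : (Σ n : ℕ, (Fin n → β)) ⊕ T) : Set (Pt ξ) :=
  match t with
  | Sum.inl s => {Pt.node s}
  | Sum.inr x => W ξ x.1 (c x.1)

theorem isClopen_coord {ξ : Γ → ℕ → β} (hξ : Function.Injective ξ) (T : Set Γ) (c : Γ → ℕ)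
    (t : (Σ n : ℕ, (Fin n → β)) ⊕ T) : IsClopen (coord ξ T c t) := by
  cases t with
  | inl s => exact ⟨isClosed_node s, isOpen_node s⟩
  | inr x => exact ⟨isClosed_W hξ _ _, isOpen_W _ _⟩

theorem cor_of_sd (ξ : Γ → ℕ → β) (hξ : Function.Injective ξ) (C : Set (Pt ξ)) (hC : IsClosed C)
    (T : Set Γ) (hT : ∀ x, Pt.lim x ∈ C → x ∈ T) (c : Γ → ℕ)
    (hc : ∀ x ∈ T, ∀ y ∈ T, x ≠ y → c x = c y → ∃ k < c x, ξ x k ≠ ξ y k) :
    StrongEb C := by
  classical
  have : Fact (Function.Injective ξ) := ⟨hξ⟩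
  have : CompactSpace C := isCompact_iff_compactSpace.mp hC.isCompact
  let f : C → ((Σ n : ℕ, (Fin n → β)) ⊕ T → ℝ) := fun p t =>
    (coord ξ T c t).indicator (fun _ => (1 : ℝ)) p.1
  have hcont : Continuous f := by
    refine continuous_pi fun t => ?_
    have h1 : Continuous ((coord ξ T c t).indicator (fun _ => (1 : ℝ))) := by
      refine (continuous_indicator (fun a ha => ?_) continuous_const.continuousOn)
      rw [(isClopen_coord hξ T c t).frontier_eq] at ha
      exact ha.elim
    exact h1.comp continuous_subtype_val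
  have hval : ∀ (p : C) t, f p t ≠ 0 ↔ p.1 ∈ coord ξ T c t := by
    intro p t
    simp only [f, ne_eq, indicator_apply_eq_zero, one_ne_zero, imp_false, not_not]
  have hinj : Function.Injective f := by
    intro p q hpq
    have h : ∀ t, p.1 ∈ coord ξ T c t ↔ q.1 ∈ coord ξ T c t := by
      intro t
      rw [← hval, ← hval, hpq]
    obtain ⟨p, hp⟩ := p
    obtain ⟨q, hq⟩ := q
    apply Subtype.ext
    show p = q
    have h' : ∀ t, p ∈ coord ξ T c t ↔ q ∈ coord ξ T c t := h
    cases p with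
    | node s =>
      have := (h' (Sum.inl s)).1 rfl
      exact this.symm
    | lim x =>
      have hx : x ∈ T := hT x hp
      have h1 := (h' (Sum.inr ⟨x, hx⟩)).1 (Or.inl rfl)
      cases q with
      | node s =>
        have := (h' (Sum.inl s)).2 rfl
        exact this
      | lim y =>
        have h2 : y = x := lim_mem_W.1 h1
        rw [h2]
      | inf => exact (inf_notMem_W _ _ h1).elim
    | inf =>
      cases q with
      | node s =>
        have := (h' (Sum.inl s)).2 rfl
        exact this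
      | lim y =>
        have hy : y ∈ T := hT y hq
        have h1 := (h' (Sum.inr ⟨y, hy⟩)).2 (Or.inl rfl)
        exact (inf_notMem_W _ _ h1).elim
      | inf => rfl
  refine ⟨_, f, (hcont.isClosedEmbedding hinj).isEmbedding, fun p => ⟨?_, fun t => ?_⟩⟩
  · have hsupp : Function.support (f p) = {t | p.1 ∈ coord ξ T c t} := by
      ext t
      exact hval p t
    rw [hsupp]
    have hsplit : {t | p.1 ∈ coord ξ T c t} ⊆
        Sum.inl '' {s : Σ n : ℕ, (Fin n → β) | p.1 = Pt.node s} ∪
        Sum.inr '' {x : T | p.1 ∈ W ξ x.1 (c x.1)} := by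
      rintro (s | x) h
      · exact Or.inl ⟨s, h, rfl⟩
      · exact Or.inr ⟨x, h, rfl⟩
    refine Finite.subset (Finite.union ?_ ?_) hsplit
    · refine Finite.image _ (Set.Subsingleton.finite ?_)
      intro s hs s' hs'
      exact Pt.node.inj ((hs : p.1 = _).symm.trans hs')
    · refine Finite.image _ ?_
      obtain ⟨p, hp⟩ := p
      cases p with
      | inf =>
        refine (Set.finite_empty).subset fun x hx => ?_
        exact (inf_notMem_W _ _ hx).elim
      | lim y =>
        refine Set.Subsingleton.finite fun x hx x' hx' => Subtype.ext ?_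
        exact (lim_mem_W.1 hx).symm.trans (lim_mem_W.1 hx')
      | node s =>
        refine Set.Finite.of_injOn (f := fun x : T => c x.1) (t := Iic s.1) ?_ ?_ (finite_Iic _)
        · intro x hx
          exact (node_mem_W.1 hx).1
        · intro x hx y hy hxy
          by_contra hne
          have hne' : x.1 ≠ y.1 := fun h => hne (Subtype.ext h)
          obtain ⟨k, hk, hk'⟩ := hc x.1 x.2 y.1 y.2 hne' hxy
          have h1 := node_mem_W.1 hx
          have h2 := node_mem_W.1 hy
          have h3 := (nd_eq.1 (h1.2.symm.trans h2.2)).2 k (lt_of_lt_of_le hk h1.1)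
          exact hk' h3
  · by_cases h : p.1 ∈ coord ξ T c t
    · right
      simp only [f, indicator_of_mem h]
    · left
      simp only [f, indicator_of_notMem h]

/-- The limit points of a set of size at most continuum. -/
theorem card_lim (ξ : Γ → ℕ → β) (hξ : Function.Injective ξ) (A : Set (Pt ξ)) (hA : #A ≤ 𝔠) :
    #{x : Γ | Pt.lim x ∈ closure A} ≤ 𝔠 := by
  classical
  have hlim : ∀ x : {x : Γ | Pt.lim x ∈ closure A}, Pt.lim x.1 ∉ A →
      ∀ n, ∃ m, n ≤ m ∧ Pt.node (nd (ξ x.1) m) ∈ A := by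
    intro x hx n
    have h1 := mem_closure_iff.1 x.2 (W ξ x.1 n) (isOpen_W _ _) (Or.inl rfl)
    obtain ⟨p, hp, hpA⟩ := h1
    rcases hp with h | ⟨m, hm, h⟩
    · rw [h] at hpA
      exact (hx hpA).elim
    · exact ⟨m, hm, h ▸ hpA⟩
  let g : {x : Γ | Pt.lim x ∈ closure A} → A ⊕ (ℕ → A) := fun x =>
    if h : Pt.lim x.1 ∈ A then Sum.inl ⟨_, h⟩ else
      Sum.inr fun n => ⟨Pt.node (nd (ξ x.1) (hlim x h n).choose), (hlim x h n).choose_spec.2⟩
  have hg : Function.Injective g := by
    intro x y hxy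
    simp only [g] at hxy
    split_ifs at hxy with hx hy hy
    · have := congrArg Subtype.val (Sum.inl.inj hxy)
      exact Subtype.ext (Pt.lim.inj this)
    · refine Subtype.ext (hξ (funext ?_))
      show ∀ k, ξ x.1 k = ξ y.1 k
      have h2 : ∀ k, ξ x.1 k = ξ y.1 k := by
        intro k
        have h3 := congrArg Subtype.val (congrFun (Sum.inr.inj hxy) (k + 1))
        have h4 := nd_eq.1 (Pt.node.inj h3)
        exact h4.2 k (lt_of_lt_of_le (Nat.lt_succ_self k) (hlim x hx (k + 1)).choose_spec.1)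
      exact h2
  have h1 : #{x : Γ | Pt.lim x ∈ closure A} ≤ #(A ⊕ (ℕ → A)) := mk_le_of_injective hg
  refine h1.trans ?_
  simp only [mk_sum, lift_id, mk_pi, prod_const, mk_nat]
  refine (add_le_add hA (power_le_power_right hA)).trans ?_
  rw [continuum_power_aleph0, continuum_add_self]

theorem not_cor (ξ : Γ → ℕ → β) (h : Cor (Pt ξ)) :
    ∃ c : Γ → ℕ, ∀ x y, x ≠ y → c x = c y → ∃ k < c x, ξ x k ≠ ξ y k := by
  classical
  obtain ⟨T, f, hf, hs⟩ := h
  have hfc : Continuous f := hf.continuous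
  -- a coordinate separating `lim x` from `inf`
  have h1 : ∀ x : Γ, ∃ t : T, ∃ m : ℕ, (1 : ℝ) / (m + 1) < |f (Pt.lim x) t - f Pt.inf t| := by
    intro x
    have hne : f (Pt.lim x) ≠ f Pt.inf := fun h => by
      have := hf.injective h
      cases this
    obtain ⟨t, ht⟩ := Function.ne_iff.1 hne
    have : 0 < |f (Pt.lim x) t - f Pt.inf t| := abs_pos.2 (sub_ne_zero.2 ht)
    obtain ⟨m, hm⟩ := exists_nat_one_div_lt this
    exact ⟨t, m, hm⟩
  choose t m htm using h1
  have hcont : ∀ s : T, Continuous fun p : Pt ξ => |f p s - f Pt.inf s| := by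
    intro s
    exact (((continuous_apply s).comp hfc).sub continuous_const).abs
  -- only finitely many limit points in the set
  have hfin : ∀ (s : T) (k : ℕ),
      {x : Γ | (1 : ℝ) / (k + 1) < |f (Pt.lim x) s - f Pt.inf s|}.Finite := by
    intro s k
    have ho : IsOpen {p : Pt ξ | |f p s - f Pt.inf s| < (1 : ℝ) / (k + 1)} :=
      isOpen_lt (hcont s) continuous_const
    obtain ⟨F, hF, -⟩ := (isOpen_iff'.1 ho).2 (by
      show |f Pt.inf s - f Pt.inf s| < (1 : ℝ) / (k + 1)
      rw [sub_self, abs_zero]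
      positivity)
    refine F.finite_toSet.subset fun x hx => ?_
    by_contra hxF
    have h2 : |f (Pt.lim x) s - f Pt.inf s| < (1 : ℝ) / (k + 1) := hF x hxF
    have h3 : (1 : ℝ) / (k + 1) < |f (Pt.lim x) s - f Pt.inf s| := hx
    exact lt_asymm h2 h3
  -- a tail of the branch
  have hn : ∀ x : Γ, ∃ n : ℕ,
      (1 : ℝ) / (m x + 1) < |f (Pt.node (nd (ξ x) n)) (t x) - f Pt.inf (t x)| := by
    intro x
    have ho : IsOpen {p : Pt ξ | (1 : ℝ) / (m x + 1) < |f p (t x) - f Pt.inf (t x)|} :=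
      isOpen_lt continuous_const (hcont (t x))
    obtain ⟨n, hn⟩ := (isOpen_iff'.1 ho).1 x (htm x)
    exact ⟨n, hn n le_rfl⟩
  choose n hn using hn
  have hcount : ∀ s : Σ n : ℕ, (Fin n → β), {x : Γ | nd (ξ x) (n x) = s}.Countable := by
    intro s
    have hsub : {x : Γ | nd (ξ x) (n x) = s} ⊆
        ⋃ r ∈ Function.support (f (Pt.node s)) ∪ Function.support (f Pt.inf), ⋃ k : ℕ,
          {x : Γ | (1 : ℝ) / (k + 1) < |f (Pt.lim x) r - f Pt.inf r|} := by
      intro x hx
      refine mem_iUnion₂.2 ⟨t x, ?_, mem_iUnion.2 ⟨m x, htm x⟩⟩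
      by_contra hcon
      simp only [mem_union, Function.mem_support, not_or, not_not] at hcon
      have h2 := hn x
      rw [(hx : nd (ξ x) (n x) = s), hcon.1, hcon.2] at h2
      simp only [sub_self, abs_zero] at h2
      have : (0 : ℝ) < 1 / (m x + 1) := by positivity
      linarith
    refine Countable.mono hsub (Countable.biUnion ((hs _).union (hs _)) fun r _ => ?_)
    exact countable_iUnion fun k => (hfin r k).countable
  have henum : ∀ s : Σ n : ℕ, (Fin n → β), ∃ e : Γ → ℕ, InjOn e {x : Γ | nd (ξ x) (n x) = s} :=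
    fun s => countable_iff_exists_injOn.1 (hcount s)
  choose e he using henum
  refine ⟨fun x => Nat.pair (n x) (e (nd (ξ x) (n x)) x), fun x y hxy hc => ?_⟩
  by_contra hcon
  push Not at hcon
  have hle : ∀ z, n z ≤ Nat.pair (n z) (e (nd (ξ z) (n z)) z) := fun z => Nat.left_le_pair _ _
  obtain ⟨h2, h3⟩ := Nat.pair_eq_pair.1 hc
  have h4 : nd (ξ x) (n x) = nd (ξ y) (n y) :=
    nd_eq.2 ⟨h2, fun k hk => hcon k (lt_of_lt_of_le hk (hle x))⟩
  rw [h4] at h3
  exact hxy (he _ h4 rfl h3)

/-- The negative answer. -/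
theorem neg_of_nonReflecting {Θ : Type} [LinearOrder Θ] (η : Θ → ℕ → β)
    (hη : Function.Injective η) (hb : ∀ g : Set ℕ → Θ, ∃ γ, ∀ A, g A < γ) (S : Set Θ)
    (h1 : ∀ γ, SD η (S ∩ Iio γ)) (h2 : ¬ SD η S) :
    ∃ (X : Type) (_ : TopologicalSpace X) (_ : CompactSpace X) (_ : T2Space X),
      (∀ A : Set X, #A ≤ 𝔠 → StrongEb (closure A)) ∧ ¬ Cor X := by
  classical
  let ξ : S → ℕ → β := fun x => η x.1
  have hξ : Function.Injective ξ := fun x y h => Subtype.ext (hη h)
  have : Fact (Function.Injective ξ) := ⟨hξ⟩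
  have hne : Nonempty Θ := by
    by_contra hn
    rw [not_nonempty_iff] at hn
    exact h2 ⟨fun _ => 0, fun x => hn.elim x⟩
  refine ⟨Pt ξ, inferInstance, inferInstance, inferInstance, fun A hA => ?_, fun hcor => ?_⟩
  · have hcard := card_lim ξ hξ A hA
    rw [← mk_set_nat] at hcard
    obtain ⟨e⟩ := Cardinal.le_def _ _ |>.1 hcard
    obtain ⟨γ, hγ⟩ := hb fun B => if h : ∃ x : {x : S | Pt.lim x ∈ closure A}, e x = B
      then h.choose.1.1 else Classical.arbitrary Θ
    have hL : ∀ x : S, Pt.lim x ∈ closure A → x.1 < γ := by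
      intro x hx
      have hex : ∃ x' : {x : S | Pt.lim x ∈ closure A}, e x' = e ⟨x, hx⟩ := ⟨_, rfl⟩
      have h3 := hγ (e ⟨x, hx⟩)
      rw [dif_pos hex] at h3
      have h4 : hex.choose = ⟨x, hx⟩ := e.injective hex.choose_spec
      rw [h4] at h3
      exact h3
    obtain ⟨c, hc⟩ := h1 γ
    refine cor_of_sd ξ hξ (closure A) isClosed_closure {x : S | x.1 < γ} hL (fun x => c x.1) ?_
    intro x hx y hy hxy hcxy
    exact hc x.1 ⟨x.2, hx⟩ y.1 ⟨y.2, hy⟩ (fun h => hxy (Subtype.ext h)) hcxy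
  · obtain ⟨c, hc⟩ := not_cor ξ hcor
    refine h2 ⟨fun x => if h : x ∈ S then c ⟨x, h⟩ else 0, fun x hx y hy hxy hcxy => ?_⟩
    simp only [dif_pos hx, dif_pos hy] at hcxy ⊢
    exact hc ⟨x, hx⟩ ⟨y, hy⟩ (fun h => hxy (congrArg Subtype.val h)) hcxy

end Pool.Agent.N480.Cors
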